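import Pool.Agent.Helper54.PT.DefsF
import Pool.Agent.Helper36.TW.C21
import Pool.Agent.Helper63.TW.C21ab
import Pool.Agent.Helper92.TW.C7
import Pool.Agent.Helper99.TW.C9
import Pool.Agent.Helper83.TE.B1
import Pool.Agent.Helper83.TE.B8
import Pool.Agent.Helper83.TE.B11
import Pool.Agent.Helper23.TE.B9
import Pool.Agent.Helper92.TE.B7

/-!
# Quadratic twists: module B14 (the class of an everywhere locally soluble covering)
-/

set_option autoImplicit false

namespace Pool.Agent.Helper54.PT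

open Polynomial Finset Filter Topology Module

section B14

variable {F : Type} [Field F] {lg : F → ZMod 2}
  {σ : Type} [Fintype σ] [DecidableEq σ] {R : σ → Prm F} {α β : F[X]}

omit [Fintype σ] [DecidableEq σ] in
theorem b14_tau0 (A B C : Option σ → ZMod 2) (v : Fin 2 → ZMod 2) (s : Option σ) :
    tauF A B C v 0 s = v 0 * A s + v 1 * (A s + B s) := rfl

omit [Fintype σ] [DecidableEq σ] in
theorem b14_tau1 (A B C : Option σ → ZMod 2) (v : Fin 2 → ZMod 2) (s : Option σ) :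
    tauF A B C v 1 s = v 0 * (A s + C s) + v 1 * A s := rfl

theorem b14_mem_GD {J : Type} [Fintype J] [DecidableEq J] (X : PData 2 σ)
    (τ : (J → ZMod 2) →+ (J → Option σ → ZMod 2))
    (H : (Option σ → J → ZMod 2) → (Option σ → J → ZMod 2) → (Option σ → ZMod 2) → Prop)
    (D : Finset X.P) (x : (Option σ → J → ZMod 2) × (D → J → ZMod 2)) :
    x ∈ GD X τ H D ↔ H x.1 (ysum X x.2) (kap X D) ∧ ∀ p j, pcond X τ x.1 x.2 p j = 0 := by
  simp only [GD, mem_filter, mem_univ, true_and]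

theorem b14_two [Finite F] (hlg : IsLog 2 lg) : (2 : F) ≠ 0 := by
  intro h
  have hinj : Function.Injective (fun x : F => x ^ 2) := by
    intro x y hxy
    have h1 : x ^ 2 = y ^ 2 := hxy
    have h2 : (x - y) ^ 2 = 0 := by
      have h3 : (x - y) ^ 2 = x ^ 2 + y ^ 2 - 2 * (x * y) := by ring
      rw [h3, h, zero_mul, sub_zero, h1]
      have h4 : y ^ 2 + y ^ 2 = 2 * y ^ 2 := by ring
      rw [h4, h, zero_mul]
    exact sub_eq_zero.1 (pow_eq_zero_iff (two_ne_zero)|>.1 h2)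
  have hsurj : Function.Surjective (fun x : F => x ^ 2) := Finite.surjective_of_injective hinj
  obtain ⟨x, hx, hx1⟩ := hlg.2.2 1
  obtain ⟨y, hy⟩ := hsurj x
  have h5 := (hlg.2.1 x hx).2 ⟨y, hy⟩
  rw [hx1] at h5
  exact one_ne_zero h5

theorem b14_ord (Q : Prm F) (U : Finset (Prm F)) :
    ordK Q (algebraMap F[X] (RatFunc F) (∏ P ∈ U, P.1)) = if Q ∈ U then 1 else 0 := by
  induction U using Finset.induction_on with
  | empty =>
    rw [Finset.prod_empty, map_one, c5_ordK_one]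
    simp
  | insert P U hP ih =>
    have h1 : algebraMap F[X] (RatFunc F) P.1 ≠ 0 :=
      RatFunc.algebraMap_ne_zero P.2.1.ne_zero
    have h2 : algebraMap F[X] (RatFunc F) (∏ P ∈ U, P.1) ≠ 0 :=
      RatFunc.algebraMap_ne_zero (Finset.prod_ne_zero_iff.2 fun P _ => P.2.1.ne_zero)
    rw [Finset.prod_insert hP, map_mul, ordK_mul Q h1 h2, ih, ordK_prime]
    by_cases hQP : Q = P
    · subst hQP
      rw [if_pos rfl, if_neg hP, if_pos (Finset.mem_insert_self _ _), add_zero]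
    · rw [if_neg hQP, zero_add]
      by_cases hQU : Q ∈ U
      · rw [if_pos hQU, if_pos (Finset.mem_insert_of_mem hQU)]
      · rw [if_neg hQU, if_neg]
        rw [Finset.mem_insert, not_or]
        exact ⟨hQP, hQU⟩

theorem b14_ne (U : Finset (Prm F)) : algebraMap F[X] (RatFunc F) (∏ P ∈ U, P.1) ≠ 0 :=
  RatFunc.algebraMap_ne_zero (Finset.prod_ne_zero_iff.2 fun P _ => P.2.1.ne_zero)

theorem b14_lc (U : Finset (Prm F)) : lcK (algebraMap F[X] (RatFunc F) (∏ P ∈ U, P.1)) = 1 := by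
  rw [lcK_poly]
  exact monic_prod_of_monic _ _ fun P _ => P.2.1

theorem b14_lg_one (hlg : IsLog 2 lg) : lg 1 = 0 := by
  have h := hlg.1 1 1 one_ne_zero one_ne_zero
  rw [mul_one] at h
  exact add_eq_left.1 h.symm

theorem b14_mkL (a b : ZMod 2 × ZMod 2) (x z : Fin 2 → ZMod 2) (h1 : a = (x 0, z 0))
    (h2 : b = (x 1, z 1)) : mkL a b = (x, z) := by
  subst h1 h2
  unfold mkL
  refine Prod.ext ?_ ?_
  · funext j
    fin_cases j <;> rfl
  · funext j
    fin_cases j <;> rfl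

omit [Fintype σ] [DecidableEq σ] in
/-- `δ` is trivial outside the primes of `D` -/
theorem b14_bcl [Finite F] (hlg : IsLog 2 lg)
    (hrec : ∀ P Q : Prm F, P ≠ Q → sy lg Q.1 P.1 = sy lg P.1 Q.1)
    (D : Finset (pd lg hrec R).P) :
    bclF R lg (algebraMap F[X] (RatFunc F) (∏ P ∈ und lg hrec R D, P.1)) = 0 := by
  funext s
  cases s with
  | none =>
    show lg (lcK (algebraMap F[X] (RatFunc F) (∏ P ∈ und lg hrec R D, P.1))) = 0
    rw [b14_lc, b14_lg_one hlg]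
  | some r =>
    show (ordK (R r) (algebraMap F[X] (RatFunc F) (∏ P ∈ und lg hrec R D, P.1)) : ZMod 2) = 0
    rw [b14_ord, if_neg, Int.cast_zero]
    intro h
    exact C21_und_ne hrec D _ h r rfl

/-- the local class of the covering at a finite prime -/
theorem b14_locP [Finite F] (hlg : IsLog 2 lg)
    (b7 : ∀ (v : AbsoluteValue (RatFunc F) ℝ), v.IsNontrivial →
      (∀ x y, v (x + y) ≤ max (v x) (v y)) → v 2 = 1 →
      ∀ {c : RatFunc F → ZMod 2 × ZMod 2}, (∀ x y, x ≠ 0 → y ≠ 0 → c (x * y) = c x + c y) →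
      c (-1) = 0 → (∀ x : RatFunc F, x ≠ 0 →
        (∃ y : v.Completion, algebraMap (RatFunc F) v.Completion x = y ^ 2) → c x = 0) →
      ∀ {α β δ b₁ b₂ : RatFunc F}, α ≠ 0 → β ≠ 0 → β - α ≠ 0 → δ ≠ 0 → b₁ ≠ 0 → b₂ ≠ 0 →
      Cov (algebraMap (RatFunc F) v.Completion (δ * α))
        (algebraMap (RatFunc F) v.Completion (δ * β))
        (algebraMap (RatFunc F) v.Completion b₁) (algebraMap (RatFunc F) v.Completion b₂) →
      LocK c α β (c δ) (mkL (c b₁) (c b₂)))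
    (Q : Prm F) (b1 : IsCls (clsP lg Q)) {α β δ b₁ b₂ : RatFunc F} (hα : α ≠ 0) (hβ : β ≠ 0)
    (hγ : β - α ≠ 0) (hδ : δ ≠ 0) (h₁ : b₁ ≠ 0) (h₂ : b₂ ≠ 0)
    (h : LocSol (δ * α) (δ * β) b₁ b₂) :
    LocK (clsP lg Q) α β (clsP lg Q δ) (mkL (clsP lg Q b₁) (clsP lg Q b₂)) := by
  have : Fact (Nat.Prime 2) := ⟨Nat.prime_two⟩
  have h2 := b14_two hlg
  obtain ⟨v, hv, hvQ⟩ := exists_absP Q
  have e2 : (2 : RatFunc F) = algebraMap F[X] (RatFunc F) (C 2) := by
    rw [map_ofNat, map_ofNat]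
  have h20 : (2 : RatFunc F) ≠ 0 := by
    rw [e2]
    exact RatFunc.algebraMap_ne_zero (C_ne_zero.2 h2)
  have hv2 : v 2 = 1 := by
    rw [hvQ 2 h20, e2, ordK_const Q h2]
    simp
  refine b7 v hv (c9_naP Q v hvQ) hv2 b1.mul b1.neg ?_ hα hβ hγ hδ h₁ h₂ (h v hv)
  intro x hx hy
  obtain ⟨e3, e4⟩ := class_of_pow_absP hlg Q v hvQ hx hy
  unfold clsP
  rw [e4]
  have e5 : ((ordK Q x : ℤ) : ZMod 2) = 0 := (ZMod.intCast_zmod_eq_zero_iff_dvd _ 2).2 (by exact_mod_cast e3)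
  rw [e5]
  rfl

/-- the local class of the covering at infinity -/
theorem b14_locI [Finite F] (hlg : IsLog 2 lg)
    (b7 : ∀ (v : AbsoluteValue (RatFunc F) ℝ), v.IsNontrivial →
      (∀ x y, v (x + y) ≤ max (v x) (v y)) → v 2 = 1 →
      ∀ {c : RatFunc F → ZMod 2 × ZMod 2}, (∀ x y, x ≠ 0 → y ≠ 0 → c (x * y) = c x + c y) →
      c (-1) = 0 → (∀ x : RatFunc F, x ≠ 0 →
        (∃ y : v.Completion, algebraMap (RatFunc F) v.Completion x = y ^ 2) → c x = 0) →
      ∀ {α β δ b₁ b₂ : RatFunc F}, α ≠ 0 → β ≠ 0 → β - α ≠ 0 → δ ≠ 0 → b₁ ≠ 0 → b₂ ≠ 0 →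
      Cov (algebraMap (RatFunc F) v.Completion (δ * α))
        (algebraMap (RatFunc F) v.Completion (δ * β))
        (algebraMap (RatFunc F) v.Completion b₁) (algebraMap (RatFunc F) v.Completion b₂) →
      LocK c α β (c δ) (mkL (c b₁) (c b₂)))
    (b2 : IsCls (clsI (F := F) lg)) {α β δ b₁ b₂ : RatFunc F} (hα : α ≠ 0) (hβ : β ≠ 0)
    (hγ : β - α ≠ 0) (hδ : δ ≠ 0) (h₁ : b₁ ≠ 0) (h₂ : b₂ ≠ 0)
    (h : LocSol (δ * α) (δ * β) b₁ b₂) :
    LocK (clsI lg) α β (clsI lg δ) (mkL (clsI lg b₁) (clsI lg b₂)) := by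
  have : Fact (Nat.Prime 2) := ⟨Nat.prime_two⟩
  have h2 := b14_two hlg
  obtain ⟨v, hv, hvQ⟩ := exists_absInf F
  have e2 : (2 : RatFunc F) = RatFunc.C 2 := by
    rw [map_ofNat]
  have h20 : (2 : RatFunc F) ≠ 0 := by
    rw [e2]
    intro h3
    rw [map_eq_zero] at h3
    exact h2 h3
  have hv2 : v 2 = 1 := by
    rw [hvQ 2 h20, e2, RatFunc.intDegree_C]
    simp
  refine b7 v hv (c9_naInf v hvQ) hv2 b2.mul b2.neg ?_ hα hβ hγ hδ h₁ h₂ (h v hv)
  intro x hx hy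
  obtain ⟨e3, e4⟩ := class_of_pow_absInf hlg v hvQ hx hy
  unfold clsI
  rw [e4]
  have e5 : ((x.intDegree : ℤ) : ZMod 2) = 0 := (ZMod.intCast_zmod_eq_zero_iff_dvd _ 2).2 (by exact_mod_cast e3)
  rw [e5]
  rfl

/-- B14 with the statements of B1, B2, B7, B8, B9, B11 as hypotheses -/
theorem cov_mem_GD_of [Finite F] (hlg : IsLog 2 lg)
    (hrec : ∀ P Q : Prm F, P ≠ Q → sy lg Q.1 P.1 = sy lg P.1 Q.1) (hS : SetupF R α β)
    (b1 : ∀ P : Prm F, IsCls (clsP lg P)) (b2 : IsCls (clsI (F := F) lg))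
    (b7 : ∀ (v : AbsoluteValue (RatFunc F) ℝ), v.IsNontrivial →
      (∀ x y, v (x + y) ≤ max (v x) (v y)) → v 2 = 1 →
      ∀ {c : RatFunc F → ZMod 2 × ZMod 2}, (∀ x y, x ≠ 0 → y ≠ 0 → c (x * y) = c x + c y) →
      c (-1) = 0 → (∀ x : RatFunc F, x ≠ 0 →
        (∃ y : v.Completion, algebraMap (RatFunc F) v.Completion x = y ^ 2) → c x = 0) →
      ∀ {α β δ b₁ b₂ : RatFunc F}, α ≠ 0 → β ≠ 0 → β - α ≠ 0 → δ ≠ 0 → b₁ ≠ 0 → b₂ ≠ 0 →
      Cov (algebraMap (RatFunc F) v.Completion (δ * α))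
        (algebraMap (RatFunc F) v.Completion (δ * β))
        (algebraMap (RatFunc F) v.Completion b₁) (algebraMap (RatFunc F) v.Completion b₂) →
      LocK c α β (c δ) (mkL (c b₁) (c b₂)))
    (b8 : ∀ {c : RatFunc F → ZMod 2 × ZMod 2}, IsCls c → ∀ {α β : RatFunc F}, α ≠ 0 → β ≠ 0 →
      β - α ≠ 0 → ∀ κ : ZMod 2 × ZMod 2, κ.1 = 1 → (c α).1 = 0 → (c β).1 = 0 →
      (c (β - α)).1 = 0 → ∀ w : LS, LocK c α β κ w →
      w.2 0 = (κ.2 + (c α).2) * w.1 0 + ((c α).2 + (c β).2) * w.1 1 ∧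
        w.2 1 = ((c α).2 + (c (β - α)).2) * w.1 0 + (κ.2 + (c α).2) * w.1 1)
    (b9 : ∀ (P : Prm F) {α β : RatFunc F}, α ≠ 0 → β ≠ 0 → β - α ≠ 0 → ordK P α = 0 →
      ordK P β = 0 → ordK P (β - α) = 0 → ∀ κ : ZMod 2 × ZMod 2, κ.1 = 0 →
      ∀ w : LS, LocK (clsP lg P) α β κ w → w.1 = 0)
    (b11a : ∀ (D : Finset (pd lg hrec R).P) {x : RatFunc F}, x ≠ 0 →
      (∀ Q : Prm F, Q ∉ und lg hrec R D → (∀ r, Q ≠ R r) → (ordK Q x : ZMod 2) = 0) →
      ∀ r : σ, clsP lg (R r) x = (bclF R lg x (some r),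
      zl (fun r => ((R r).1.natDegree : ZMod 2)) (fun r r' => sy lg (R r).1 (R r').1)
        (bclF R lg x) (fun s => ∑ p : D, (pd lg hrec R).xx p.1 s * (ordK p.1.1 x : ZMod 2))
        (some r)))
    (b11b : ∀ (D : Finset (pd lg hrec R).P) {x : RatFunc F}, x ≠ 0 →
      (∀ Q : Prm F, Q ∉ und lg hrec R D → (∀ r, Q ≠ R r) → (ordK Q x : ZMod 2) = 0) →
      clsI lg x = (bclF R lg x none,
      zl (fun r => ((R r).1.natDegree : ZMod 2)) (fun r r' => sy lg (R r).1 (R r').1)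
        (bclF R lg x) (fun s => ∑ p : D, (pd lg hrec R).xx p.1 s * (ordK p.1.1 x : ZMod 2))
        none))
    (b11c : ∀ (D : Finset (pd lg hrec R).P) {x : RatFunc F}, x ≠ 0 →
      (∀ Q : Prm F, Q ∉ und lg hrec R D → (∀ r, Q ≠ R r) → (ordK Q x : ZMod 2) = 0) →
      ∀ p : D, clsP lg p.1.1 x = ((ordK p.1.1 x : ZMod 2),
        ∑ s : Option σ, bclF R lg x s * (pd lg hrec R).xx p.1 s +
        ∑ p' : D, (if p' = p then 0 else (ordK p'.1.1 x : ZMod 2) * (pd lg hrec R).sym p'.1 p.1)))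
    (M : Option σ → ZMod 2 → Submodule (ZMod 2) LS)
    (hM : ∀ (r : σ) (c : ZMod 2) (w : LS), LocK (clsP lg (R r)) (algebraMap F[X] (RatFunc F) α)
      (algebraMap F[X] (RatFunc F) β) (0, c) w → w ∈ M (some r) c)
    (hM' : ∀ (c : ZMod 2) (w : LS), LocK (clsI lg) (algebraMap F[X] (RatFunc F) α)
      (algebraMap F[X] (RatFunc F) β) (0, c) w → w ∈ M none c)
    (D : Finset (pd lg hrec R).P) (b : Fin 2 → RatFunc F) (hb : ∀ j, b j ≠ 0)
    (h : LocSol (algebraMap F[X] (RatFunc F) ((∏ P ∈ und lg hrec R D, P.1) * α))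
      (algebraMap F[X] (RatFunc F) ((∏ P ∈ und lg hrec R D, P.1) * β)) (b 0) (b 1)) :
    (∀ j (Q : Prm F), Q ∉ und lg hrec R D → (∀ r, Q ≠ R r) → (ordK Q (b j) : ZMod 2) = 0) ∧
    ((fun s j => bclF R lg (b j) s, fun p j => (ordK p.1.1 (b j) : ZMod 2)) :
      (Option σ → Fin 2 → ZMod 2) × (D → Fin 2 → ZMod 2)) ∈ GD (pd lg hrec R)
        (tauF (bclF R lg (algebraMap F[X] (RatFunc F) α)) (bclF R lg (algebraMap F[X] (RatFunc F) β))
          (bclF R lg (algebraMap F[X] (RatFunc F) (β - α))))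
        (HM (fun r => ((R r).1.natDegree : ZMod 2)) (fun r r' => sy lg (R r).1 (R r').1) M) D := by
  set δ : RatFunc F := algebraMap F[X] (RatFunc F) (∏ P ∈ und lg hrec R D, P.1) with hδ
  set a' : RatFunc F := algebraMap F[X] (RatFunc F) α with ha'
  set b' : RatFunc F := algebraMap F[X] (RatFunc F) β with hb'
  have hδ0 : δ ≠ 0 := b14_ne _
  have ha0 : a' ≠ 0 := RatFunc.algebraMap_ne_zero hS.hα
  have hb0 : b' ≠ 0 := RatFunc.algebraMap_ne_zero hS.hβ
  have hg' : algebraMap F[X] (RatFunc F) (β - α) = b' - a' := by rw [map_sub]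
  have hg0 : b' - a' ≠ 0 := by
    rw [← hg']
    exact RatFunc.algebraMap_ne_zero hS.hγ
  rw [map_mul, map_mul, ← hδ, ← ha', ← hb'] at h
  -- the orders of the coefficients outside the bad primes
  have hdvd : ∀ Q : Prm F, (∀ r, Q ≠ R r) → ¬ Q.1 ∣ α ∧ ¬ Q.1 ∣ β ∧ ¬ Q.1 ∣ (β - α) := by
    intro Q hQ
    have h1 : ¬ Q.1 ∣ α * β * (β - α) := by
      intro h2
      obtain ⟨r, hr⟩ := (hS.mem Q).2 h2
      exact hQ r hr.symm
    refine ⟨fun h2 => h1 ?_, fun h2 => h1 ?_, fun h2 => h1 ?_⟩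
    · exact (h2.mul_right β).mul_right _
    · exact (h2.mul_left α).mul_right _
    · exact h2.mul_left _
  have hord : ∀ Q : Prm F, (∀ r, Q ≠ R r) → ordK Q a' = 0 ∧ ordK Q b' = 0 ∧
      ordK Q (b' - a') = 0 := by
    intro Q hQ
    obtain ⟨h1, h2, h3⟩ := hdvd Q hQ
    refine ⟨?_, ?_, ?_⟩
    · rw [ha', ordK_poly Q hS.hα, multiplicity_eq_zero.2 h1, Nat.cast_zero]
    · rw [hb', ordK_poly Q hS.hβ, multiplicity_eq_zero.2 h2, Nat.cast_zero]
    · rw [← hg', ordK_poly Q hS.hγ, multiplicity_eq_zero.2 h3, Nat.cast_zero]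
  have hδord : ∀ Q : Prm F, Q ∉ und lg hrec R D → ordK Q δ = 0 := by
    intro Q hQ
    rw [hδ, b14_ord, if_neg hQ]
  have hδord1 : ∀ p : D, ordK p.1.1 δ = 1 := by
    intro p
    rw [hδ, b14_ord, if_pos (C21_mem_und hrec D p)]
  have hδb : bclF R lg δ = 0 := b14_bcl hlg hrec D
  have hδx : ∀ Q : Prm F, Q ∉ und lg hrec R D → (∀ r, Q ≠ R r) → (ordK Q δ : ZMod 2) = 0 := by
    intro Q hQ _
    rw [hδord Q hQ, Int.cast_zero]
  have hlocP : ∀ Q : Prm F, LocK (clsP lg Q) a' b' (clsP lg Q δ)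
      (mkL (clsP lg Q (b 0)) (clsP lg Q (b 1))) := fun Q =>
    b14_locP hlg b7 Q (b1 Q) ha0 hb0 hg0 hδ0 (hb 0) (hb 1) h
  have hlocI : LocK (clsI lg) a' b' (clsI lg δ) (mkL (clsI lg (b 0)) (clsI lg (b 1))) :=
    b14_locI hlg b7 b2 ha0 hb0 hg0 hδ0 (hb 0) (hb 1) h
  -- the good primes
  have hgood : ∀ j (Q : Prm F), Q ∉ und lg hrec R D → (∀ r, Q ≠ R r) →
      (ordK Q (b j) : ZMod 2) = 0 := by
    intro j Q hQ hQR
    obtain ⟨h1, h2, h3⟩ := hord Q hQR
    have h4 := b9 Q ha0 hb0 hg0 h1 h2 h3 (clsP lg Q δ) (hδx Q hQ hQR) _ (hlocP Q)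
    have h5 := congrFun h4 j
    fin_cases j
    · exact h5
    · exact h5
  refine ⟨hgood, ?_⟩
  suffices hmem : HM (fun r => ((R r).1.natDegree : ZMod 2)) (fun r r' => sy lg (R r).1 (R r').1) M
        (fun s j => bclF R lg (b j) s)
        (ysum (pd lg hrec R) fun (p : D) j => (ordK p.1.1 (b j) : ZMod 2)) (kap (pd lg hrec R) D) ∧
      ∀ (p : D) (j : Fin 2), pcond (pd lg hrec R)
        (tauF (bclF R lg a') (bclF R lg b') (bclF R lg (algebraMap F[X] (RatFunc F) (β - α))))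
        (fun s j => bclF R lg (b j) s) (fun (p : D) j => (ordK p.1.1 (b j) : ZMod 2)) p j = 0 by
    exact (b14_mem_GD _ _ _ _ _).2 hmem
  refine ⟨?_, fun p j => ?_⟩
  · intro t
    cases t with
    | none =>
      have hκ : clsI lg δ = (0, kap (pd lg hrec R) D none) := by
        rw [b11b D hδ0 hδx, hδb]
        refine Prod.ext rfl ?_
        show ∑ r, ((R r).1.natDegree : ZMod 2) * (0 : Option σ → ZMod 2) (some r) +
          ∑ p : D, (pd lg hrec R).xx p.1 none * (ordK p.1.1 δ : ZMod 2) = _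
        have e1 : ∑ r, ((R r).1.natDegree : ZMod 2) * (0 : Option σ → ZMod 2) (some r) = 0 :=
          sum_eq_zero fun r _ => by rw [Pi.zero_apply, mul_zero]
        rw [e1, zero_add]
        unfold kap
        rw [← sum_coe_sort D fun p => (pd lg hrec R).xx p none]
        refine sum_congr rfl fun p _ => ?_
        rw [hδord1 p, Int.cast_one, mul_one]
      have h1 := hlocI
      rw [hκ] at h1
      have h2 := hM' _ _ h1
      have h3 : mkL (clsI lg (b 0)) (clsI lg (b 1)) = ((fun j => bclF R lg (b j) none,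
          fun j => zl (fun r => ((R r).1.natDegree : ZMod 2)) (fun r r' => sy lg (R r).1 (R r').1)
            (fun s => bclF R lg (b j) s) (fun s => ysum (pd lg hrec R)
              (fun (p : D) j => (ordK p.1.1 (b j) : ZMod 2)) s j) none) : LS) := by
        refine b14_mkL _ _ _ _ ?_ ?_
        · exact b11b D (hb 0) (hgood 0)
        · exact b11b D (hb 1) (hgood 1)
      rw [h3] at h2
      exact h2
    | some r =>
      have hκ : clsP lg (R r) δ = (0, kap (pd lg hrec R) D (some r)) := by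
        rw [b11a D hδ0 hδx r, hδb]
        refine Prod.ext rfl ?_
        show ∑ r' ∈ univ.erase r, (0 : Option σ → ZMod 2) (some r') * sy lg (R r).1 (R r').1 +
          (0 : Option σ → ZMod 2) none * ((R r).1.natDegree : ZMod 2) +
          ∑ p : D, (pd lg hrec R).xx p.1 (some r) * (ordK p.1.1 δ : ZMod 2) = _
        have e1 : ∑ r' ∈ univ.erase r, (0 : Option σ → ZMod 2) (some r') *
            sy lg (R r).1 (R r').1 = 0 :=
          sum_eq_zero fun r _ => by rw [Pi.zero_apply, zero_mul]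
        rw [e1, Pi.zero_apply, zero_mul, zero_add, zero_add]
        unfold kap
        rw [← sum_coe_sort D fun p => (pd lg hrec R).xx p (some r)]
        refine sum_congr rfl fun p _ => ?_
        rw [hδord1 p, Int.cast_one, mul_one]
      have h1 := hlocP (R r)
      rw [hκ] at h1
      have h2 := hM r _ _ h1
      have h3 : mkL (clsP lg (R r) (b 0)) (clsP lg (R r) (b 1)) =
          ((fun j => bclF R lg (b j) (some r),
          fun j => zl (fun r => ((R r).1.natDegree : ZMod 2)) (fun r r' => sy lg (R r).1 (R r').1)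
            (fun s => bclF R lg (b j) s) (fun s => ysum (pd lg hrec R)
              (fun (p : D) j => (ordK p.1.1 (b j) : ZMod 2)) s j) (some r)) : LS) := by
        refine b14_mkL _ _ _ _ ?_ ?_
        · exact b11a D (hb 0) (hgood 0) r
        · exact b11a D (hb 1) (hgood 1) r
      rw [h3] at h2
      exact h2
  · -- the primes of `D`
    have hpR : ∀ r, p.1.1 ≠ R r := p.1.2
    obtain ⟨h1, h2, h3⟩ := hord p.1.1 hpR
    set K0 : ZMod 2 := ∑ p' : D, (if p' = p then 0 else (pd lg hrec R).sym p'.1 p.1) with hK0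
    have hκ : clsP lg p.1.1 δ = (1, K0) := by
      rw [b11c D hδ0 hδx p, hδord1 p, Int.cast_one, hδb]
      refine Prod.ext rfl ?_
      show ∑ s : Option σ, (0 : Option σ → ZMod 2) s * (pd lg hrec R).xx p.1 s +
        ∑ p' : D, (if p' = p then 0 else (ordK p'.1.1 δ : ZMod 2) * (pd lg hrec R).sym p'.1 p.1) = K0
      have e1 : ∑ s : Option σ, (0 : Option σ → ZMod 2) s * (pd lg hrec R).xx p.1 s = 0 :=
        sum_eq_zero fun r _ => by rw [Pi.zero_apply, zero_mul]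
      rw [e1, zero_add, hK0]
      refine sum_congr rfl fun p' _ => ?_
      rw [hδord1 p', Int.cast_one, one_mul]
    have hcoef : ∀ x : RatFunc F, x ≠ 0 → (∀ Q : Prm F, (∀ r, Q ≠ R r) → ordK Q x = 0) →
        clsP lg p.1.1 x = (0, ∑ s : Option σ, bclF R lg x s * (pd lg hrec R).xx p.1 s) := by
      intro x hx hx0
      rw [b11c D hx (fun Q _ hQ => by rw [hx0 Q hQ, Int.cast_zero]) p, hx0 p.1.1 hpR, Int.cast_zero]
      refine Prod.ext rfl ?_
      show ∑ s : Option σ, bclF R lg x s * (pd lg hrec R).xx p.1 s +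
        ∑ p' : D, (if p' = p then 0 else (ordK p'.1.1 x : ZMod 2) * (pd lg hrec R).sym p'.1 p.1) = _
      have e1 : ∑ p' : D, (if p' = p then 0 else (ordK p'.1.1 x : ZMod 2) *
          (pd lg hrec R).sym p'.1 p.1) = 0 := by
        refine sum_eq_zero fun p' _ => ?_
        rw [hx0 p'.1.1 p'.1.2, Int.cast_zero, zero_mul, ite_self]
      rw [e1, add_zero]
    have cα := hcoef a' ha0 fun Q hQ => (hord Q hQ).1
    have cβ := hcoef b' hb0 fun Q hQ => (hord Q hQ).2.1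
    have cγ := hcoef (b' - a') hg0 fun Q hQ => (hord Q hQ).2.2
    have hw := hlocP p.1.1
    obtain ⟨e1, e2⟩ := b8 (b1 p.1.1) ha0 hb0 hg0 (clsP lg p.1.1 δ) (by rw [hκ])
      (by rw [cα]) (by rw [cβ]) (by rw [cγ]) _ hw
    rw [hκ, cα, cβ] at e1
    rw [hκ, cα, cγ] at e2
    have hb0c := b11c D (hb 0) (hgood 0) p
    have hb1c := b11c D (hb 1) (hgood 1) p
    rw [hb0c, hb1c] at e1 e2
    set A : Option σ → ZMod 2 := bclF R lg a' with hA
    set B : Option σ → ZMod 2 := bclF R lg b' with hB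
    set G : Option σ → ZMod 2 := bclF R lg (b' - a') with hG
    -- unfold the two relations
    have e1' : ∑ s : Option σ, bclF R lg (b 0) s * (pd lg hrec R).xx p.1 s +
        ∑ p' : D, (if p' = p then 0 else (ordK p'.1.1 (b 0) : ZMod 2) * (pd lg hrec R).sym p'.1 p.1) =
        (K0 + ∑ s : Option σ, A s * (pd lg hrec R).xx p.1 s) * (ordK p.1.1 (b 0) : ZMod 2) +
        (∑ s : Option σ, A s * (pd lg hrec R).xx p.1 s + ∑ s : Option σ, B s * (pd lg hrec R).xx p.1 s) *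
          (ordK p.1.1 (b 1) : ZMod 2) := e1
    have e2' : ∑ s : Option σ, bclF R lg (b 1) s * (pd lg hrec R).xx p.1 s +
        ∑ p' : D, (if p' = p then 0 else (ordK p'.1.1 (b 1) : ZMod 2) * (pd lg hrec R).sym p'.1 p.1) =
        (∑ s : Option σ, A s * (pd lg hrec R).xx p.1 s + ∑ s : Option σ, G s * (pd lg hrec R).xx p.1 s) *
          (ordK p.1.1 (b 0) : ZMod 2) +
        (K0 + ∑ s : Option σ, A s * (pd lg hrec R).xx p.1 s) * (ordK p.1.1 (b 1) : ZMod 2) := e2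
    have hsplit : ∀ j : Fin 2, ∑ p' : D, (if p' = p then 0 else
        ((ordK p'.1.1 (b j) : ZMod 2) - (ordK p.1.1 (b j) : ZMod 2)) * (pd lg hrec R).sym p'.1 p.1) =
        ∑ p' : D, (if p' = p then 0 else (ordK p'.1.1 (b j) : ZMod 2) * (pd lg hrec R).sym p'.1 p.1) -
          (ordK p.1.1 (b j) : ZMod 2) * K0 := by
      intro j
      rw [hK0, mul_sum, ← sum_sub_distrib]
      refine sum_congr rfl fun p' _ => ?_
      by_cases hp : p' = p
      · rw [if_pos hp, if_pos hp, if_pos hp, mul_zero, sub_zero]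
      · rw [if_neg hp, if_neg hp, if_neg hp]
        ring
    have hτ0 : ∑ s : Option σ, tauF A B G (fun j => (ordK p.1.1 (b j) : ZMod 2)) 0 s * (pd lg hrec R).xx p.1 s =
        (ordK p.1.1 (b 0) : ZMod 2) * ∑ s : Option σ, A s * (pd lg hrec R).xx p.1 s +
        (ordK p.1.1 (b 1) : ZMod 2) * (∑ s : Option σ, A s * (pd lg hrec R).xx p.1 s +
          ∑ s : Option σ, B s * (pd lg hrec R).xx p.1 s) := by
      rw [← sum_add_distrib, mul_sum, mul_sum, ← sum_add_distrib]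
      refine sum_congr rfl fun s _ => ?_
      rw [b14_tau0]
      ring
    have hτ1 : ∑ s : Option σ, tauF A B G (fun j => (ordK p.1.1 (b j) : ZMod 2)) 1 s * (pd lg hrec R).xx p.1 s =
        (ordK p.1.1 (b 0) : ZMod 2) * (∑ s : Option σ, A s * (pd lg hrec R).xx p.1 s +
          ∑ s : Option σ, G s * (pd lg hrec R).xx p.1 s) +
        (ordK p.1.1 (b 1) : ZMod 2) * ∑ s : Option σ, A s * (pd lg hrec R).xx p.1 s := by
      rw [← sum_add_distrib, mul_sum, mul_sum, ← sum_add_distrib]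
      refine sum_congr rfl fun s _ => ?_
      rw [b14_tau1]
      ring
    have hfin : ∀ j : Fin 2, ∑ s : Option σ, bclF R lg (b j) s * (pd lg hrec R).xx p.1 s +
        ∑ p' : D, (if p' = p then 0 else
          ((ordK p'.1.1 (b j) : ZMod 2) - (ordK p.1.1 (b j) : ZMod 2)) * (pd lg hrec R).sym p'.1 p.1) -
        ∑ s : Option σ, tauF A B G (fun j => (ordK p.1.1 (b j) : ZMod 2)) j s * (pd lg hrec R).xx p.1 s = 0 := by
      intro j
      rw [hsplit j]
      fin_cases j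
      · show ∑ s : Option σ, bclF R lg (b 0) s * (pd lg hrec R).xx p.1 s +
          (∑ p' : D, (if p' = p then 0 else (ordK p'.1.1 (b 0) : ZMod 2) * (pd lg hrec R).sym p'.1 p.1) -
            (ordK p.1.1 (b 0) : ZMod 2) * K0) -
          ∑ s : Option σ, tauF A B G (fun j => (ordK p.1.1 (b j) : ZMod 2)) 0 s * (pd lg hrec R).xx p.1 s = 0
        rw [hτ0]
        linear_combination e1'
      · show ∑ s : Option σ, bclF R lg (b 1) s * (pd lg hrec R).xx p.1 s +
          (∑ p' : D, (if p' = p then 0 else (ordK p'.1.1 (b 1) : ZMod 2) * (pd lg hrec R).sym p'.1 p.1) -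
            (ordK p.1.1 (b 1) : ZMod 2) * K0) -
          ∑ s : Option σ, tauF A B G (fun j => (ordK p.1.1 (b j) : ZMod 2)) 1 s * (pd lg hrec R).xx p.1 s = 0
        rw [hτ1]
        linear_combination e2'
    rw [hg']
    exact hfin j

/-- B14: the class of an everywhere locally soluble covering (uses B7, B8, B9, B11) -/
theorem cov_mem_GD [Finite F] (hlg : IsLog 2 lg) (hm : lg (-1) = 0)
    (hrec : ∀ P Q : Prm F, P ≠ Q → sy lg Q.1 P.1 = sy lg P.1 Q.1) (hS : SetupF R α β)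
    (M : Option σ → ZMod 2 → Submodule (ZMod 2) LS)
    (hM : ∀ (r : σ) (c : ZMod 2) (w : LS), LocK (clsP lg (R r)) (algebraMap F[X] (RatFunc F) α)
      (algebraMap F[X] (RatFunc F) β) (0, c) w → w ∈ M (some r) c)
    (hM' : ∀ (c : ZMod 2) (w : LS), LocK (clsI lg) (algebraMap F[X] (RatFunc F) α)
      (algebraMap F[X] (RatFunc F) β) (0, c) w → w ∈ M none c)
    (D : Finset (pd lg hrec R).P) (b : Fin 2 → RatFunc F) (hb : ∀ j, b j ≠ 0)
    (h : LocSol (algebraMap F[X] (RatFunc F) ((∏ P ∈ und lg hrec R D, P.1) * α))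
      (algebraMap F[X] (RatFunc F) ((∏ P ∈ und lg hrec R D, P.1) * β)) (b 0) (b 1)) :
    (∀ j (Q : Prm F), Q ∉ und lg hrec R D → (∀ r, Q ≠ R r) → (ordK Q (b j) : ZMod 2) = 0) ∧
    ((fun s j => bclF R lg (b j) s, fun p j => (ordK p.1.1 (b j) : ZMod 2)) :
      (Option σ → Fin 2 → ZMod 2) × (D → Fin 2 → ZMod 2)) ∈ GD (pd lg hrec R)
        (tauF (bclF R lg (algebraMap F[X] (RatFunc F) α)) (bclF R lg (algebraMap F[X] (RatFunc F) β))
          (bclF R lg (algebraMap F[X] (RatFunc F) (β - α))))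
        (HM (fun r => ((R r).1.natDegree : ZMod 2)) (fun r r' => sy lg (R r).1 (R r').1) M) D :=
  cov_mem_GD_of hlg hrec hS (fun P => isCls_clsP hlg hm P) (isCls_clsI hlg hm)
    (fun v hv hna h2 {_} hc hneg hsq {_ _ _ _ _} hα hβ hγ hδ h₁ h₂ h =>
      locK_of_cov v hv hna h2 hc hneg hsq hα hβ hγ hδ h₁ h₂ h)
    (fun {_} hc {_ _} hα hβ hγ κ hκ h1 h2 h3 w hw => locK_D hc hα hβ hγ κ hκ h1 h2 h3 w hw)
    (fun P {_ _} hα hβ hγ h1 h2 h3 κ hκ w hw => good_even hlg P hα hβ hγ h1 h2 h3 κ hκ w hw)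
    (fun D {_} hx hx' r => clsP_eq hlg hrec hS D hx hx' r)
    (fun D {_} hx hx' => clsI_eq hlg hrec hS D hx hx')
    (fun D {_} hx hx' p => clsP_eqD hlg hrec hS D hx hx' p) M hM hM' D b hb h

end B14

end Pool.Agent.Helper54.PT
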